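import Mathlib
import Pool.Agent.H22.IGraphDefs
import Pool.Agent.H22.IGraph

set_option autoImplicit false

namespace Pool.Agent.Results.MP_540c93_co.NoFinite
open Pool.Agent.H22.IGraph

theorem result (F : Set (Σ k : ℕ, SimpleGraph (Fin k))) (hF : F.Finite) :
    ∃ (W : Type) (_ : Finite W) (H : SimpleGraph W), H.Connected ∧
      ¬ (IsIGraph H ↔ ∀ A ∈ F, IsEmpty (A.2 ↪g H)) := by
  obtain ⟨W, hW, H, h1, h2⟩ := main F hF
  exact ⟨W, hW, H, h1, h2⟩

end Pool.Agent.Results.MP_540c93_co.NoFinite
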